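import Mathlib

/-!
# PC: plane cubics, definitions

Project PC (MP_83b46e_ag): the function field of a smooth plane cubic over the function field of a curve is a genus one
fibration with Jacobian `y ^ 2 = x ^ 3 + S x + T`, where `S`, `T` are the Aronhold invariants (suitably normalised).

`cub c X Y Z` is the cubic form with the coefficients `c`, `dcub c p q = ∑ ∂_i U (p) q_i`, `mcub c p q r` is the symmetric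
trilinear form with `mcub c p p p = 6 U (p)`, `act c N` are the coefficients of the form `U (N (X, Y, Z))`, and
`wei A B` are the coefficients of `Y² Z - X³ - A X Z² - B Z³`.
-/

set_option linter.unusedSectionVars false

namespace Pool.Agent.Helper83.PC

section defs

variable {R : Type*} [CommRing R]

/-- The cubic form with the coefficients `c`. -/
def cub (c : Fin 10 → R) (X Y Z : R) : R :=
  c 0 * X ^ 3 + c 1 * X ^ 2 * Y + c 2 * X ^ 2 * Z + c 3 * X * Y ^ 2 + c 4 * X * Y * Z + c 5 * X * Z ^ 2 +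
    c 6 * Y ^ 3 + c 7 * Y ^ 2 * Z + c 8 * Y * Z ^ 2 + c 9 * Z ^ 3

/-- The derivative of the form at `p` in the direction `q`. -/
def dcub (c : Fin 10 → R) (p q : Fin 3 → R) : R :=
  (3 * c 0 * p 0 ^ 2 + 2 * c 1 * p 0 * p 1 + 2 * c 2 * p 0 * p 2 + c 3 * p 1 ^ 2 + c 4 * p 1 * p 2 +
    c 5 * p 2 ^ 2) * q 0 +
  (c 1 * p 0 ^ 2 + 2 * c 3 * p 0 * p 1 + c 4 * p 0 * p 2 + 3 * c 6 * p 1 ^ 2 + 2 * c 7 * p 1 * p 2 +
    c 8 * p 2 ^ 2) * q 1 +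
  (c 2 * p 0 ^ 2 + c 4 * p 0 * p 1 + 2 * c 5 * p 0 * p 2 + c 7 * p 1 ^ 2 + 2 * c 8 * p 1 * p 2 +
    3 * c 9 * p 2 ^ 2) * q 2

/-- The symmetric trilinear form of the cubic form, `mcub c p p p = 6 U (p)`. -/
def mcub (c : Fin 10 → R) (p q r : Fin 3 → R) : R :=
  6 * c 0 * p 0 * q 0 * r 0 +
  2 * c 1 * (p 0 * q 0 * r 1 + p 0 * q 1 * r 0 + p 1 * q 0 * r 0) +
  2 * c 2 * (p 0 * q 0 * r 2 + p 0 * q 2 * r 0 + p 2 * q 0 * r 0) +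
  2 * c 3 * (p 0 * q 1 * r 1 + p 1 * q 0 * r 1 + p 1 * q 1 * r 0) +
  c 4 * (p 0 * q 1 * r 2 + p 0 * q 2 * r 1 + p 1 * q 0 * r 2 + p 1 * q 2 * r 0 + p 2 * q 0 * r 1 +
    p 2 * q 1 * r 0) +
  2 * c 5 * (p 0 * q 2 * r 2 + p 2 * q 0 * r 2 + p 2 * q 2 * r 0) +
  6 * c 6 * p 1 * q 1 * r 1 +
  2 * c 7 * (p 1 * q 1 * r 2 + p 1 * q 2 * r 1 + p 2 * q 1 * r 1) +
  2 * c 8 * (p 1 * q 2 * r 2 + p 2 * q 1 * r 2 + p 2 * q 2 * r 1) +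
  6 * c 9 * p 2 * q 2 * r 2

/-- The coefficients of the form `U (X p + Y q + Z r)`. -/
def pull (c : Fin 10 → R) (p q r : Fin 3 → R) : Fin 10 → R :=
  ![cub c (p 0) (p 1) (p 2), dcub c p q, dcub c p r, dcub c q p, mcub c p q r, dcub c r p,
    cub c (q 0) (q 1) (q 2), dcub c q r, dcub c r q, cub c (r 0) (r 1) (r 2)]

/-- The coefficients of the form `U (N (X, Y, Z))`. -/
def act (c : Fin 10 → R) (N : Matrix (Fin 3) (Fin 3) R) : Fin 10 → R :=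
  pull c (fun i => N i 0) (fun i => N i 1) (fun i => N i 2)

/-- The coefficients of `Y² Z - X³ - A X Z² - B Z³`. -/
def wei (A B : R) : Fin 10 → R := ![-1, 0, 0, 0, 0, -A, 0, 1, 0, -B]

end defs

section inv

variable {K : Type*} [Field K]

/-- The invariant `S`, with `S (wei A B) = A`. -/
def sA (c : Fin 10 → K) : K :=
  (-144 * c 0 * c 3 * c 7 * c 9 + 48 * c 0 * c 3 * c 8 ^ 2 + 216 * c 0 * c 4 * c 6 * c 9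
    - 24 * c 0 * c 4 * c 7 * c 8 - 144 * c 0 * c 5 * c 6 * c 8 + 48 * c 0 * c 5 * c 7 ^ 2
    + 48 * c 1 ^ 2 * c 7 * c 9 - 16 * c 1 ^ 2 * c 8 ^ 2 - 144 * c 1 * c 2 * c 6 * c 9
    + 16 * c 1 * c 2 * c 7 * c 8 - 24 * c 1 * c 3 * c 4 * c 9 + 16 * c 1 * c 3 * c 5 * c 8
    + 8 * c 1 * c 4 ^ 2 * c 8 - 24 * c 1 * c 4 * c 5 * c 7 + 48 * c 1 * c 5 ^ 2 * c 6
    + 48 * c 2 ^ 2 * c 6 * c 8 - 16 * c 2 ^ 2 * c 7 ^ 2 + 48 * c 2 * c 3 ^ 2 * c 9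
    - 24 * c 2 * c 3 * c 4 * c 8 + 16 * c 2 * c 3 * c 5 * c 7 + 8 * c 2 * c 4 ^ 2 * c 7
    - 24 * c 2 * c 4 * c 5 * c 6 - 16 * c 3 ^ 2 * c 5 ^ 2 + 8 * c 3 * c 4 ^ 2 * c 5 - c 4 ^ 4) / 48

/-- The invariant `T`, with `T (wei A B) = B`. -/
def sB (c : Fin 10 → K) : K :=
  (-5832 * c 0 ^ 2 * c 6 ^ 2 * c 9 ^ 2 + 3888 * c 0 ^ 2 * c 6 * c 7 * c 8 * c 9
    - 864 * c 0 ^ 2 * c 6 * c 8 ^ 3 - 864 * c 0 ^ 2 * c 7 ^ 3 * c 9 + 216 * c 0 ^ 2 * c 7 ^ 2 * c 8 ^ 2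
    + 3888 * c 0 * c 1 * c 3 * c 6 * c 9 ^ 2 - 1296 * c 0 * c 1 * c 3 * c 7 * c 8 * c 9
    + 288 * c 0 * c 1 * c 3 * c 8 ^ 3 - 1296 * c 0 * c 1 * c 4 * c 6 * c 8 * c 9
    + 864 * c 0 * c 1 * c 4 * c 7 ^ 2 * c 9 - 144 * c 0 * c 1 * c 4 * c 7 * c 8 ^ 2
    - 1296 * c 0 * c 1 * c 5 * c 6 * c 7 * c 9 + 864 * c 0 * c 1 * c 5 * c 6 * c 8 ^ 2
    - 144 * c 0 * c 1 * c 5 * c 7 ^ 2 * c 8 - 1296 * c 0 * c 2 * c 3 * c 6 * c 8 * c 9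
    + 864 * c 0 * c 2 * c 3 * c 7 ^ 2 * c 9 - 144 * c 0 * c 2 * c 3 * c 7 * c 8 ^ 2
    - 1296 * c 0 * c 2 * c 4 * c 6 * c 7 * c 9 + 864 * c 0 * c 2 * c 4 * c 6 * c 8 ^ 2
    - 144 * c 0 * c 2 * c 4 * c 7 ^ 2 * c 8 + 3888 * c 0 * c 2 * c 5 * c 6 ^ 2 * c 9
    - 1296 * c 0 * c 2 * c 5 * c 6 * c 7 * c 8 + 288 * c 0 * c 2 * c 5 * c 7 ^ 3
    - 864 * c 0 * c 3 ^ 3 * c 9 ^ 2 + 864 * c 0 * c 3 ^ 2 * c 4 * c 8 * c 9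
    + 864 * c 0 * c 3 ^ 2 * c 5 * c 7 * c 9 - 576 * c 0 * c 3 ^ 2 * c 5 * c 8 ^ 2
    - 648 * c 0 * c 3 * c 4 ^ 2 * c 7 * c 9 - 72 * c 0 * c 3 * c 4 ^ 2 * c 8 ^ 2
    - 1296 * c 0 * c 3 * c 4 * c 5 * c 6 * c 9 + 720 * c 0 * c 3 * c 4 * c 5 * c 7 * c 8
    + 864 * c 0 * c 3 * c 5 ^ 2 * c 6 * c 8 - 576 * c 0 * c 3 * c 5 ^ 2 * c 7 ^ 2
    + 540 * c 0 * c 4 ^ 3 * c 6 * c 9 + 36 * c 0 * c 4 ^ 3 * c 7 * c 8
    - 648 * c 0 * c 4 ^ 2 * c 5 * c 6 * c 8 - 72 * c 0 * c 4 ^ 2 * c 5 * c 7 ^ 2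
    + 864 * c 0 * c 4 * c 5 ^ 2 * c 6 * c 7 - 864 * c 0 * c 5 ^ 3 * c 6 ^ 2
    - 864 * c 1 ^ 3 * c 6 * c 9 ^ 2 + 288 * c 1 ^ 3 * c 7 * c 8 * c 9 - 64 * c 1 ^ 3 * c 8 ^ 3
    + 864 * c 1 ^ 2 * c 2 * c 6 * c 8 * c 9 - 576 * c 1 ^ 2 * c 2 * c 7 ^ 2 * c 9
    + 96 * c 1 ^ 2 * c 2 * c 7 * c 8 ^ 2 + 216 * c 1 ^ 2 * c 3 ^ 2 * c 9 ^ 2
    - 144 * c 1 ^ 2 * c 3 * c 4 * c 8 * c 9 - 144 * c 1 ^ 2 * c 3 * c 5 * c 7 * c 9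
    + 96 * c 1 ^ 2 * c 3 * c 5 * c 8 ^ 2 - 72 * c 1 ^ 2 * c 4 ^ 2 * c 7 * c 9
    + 48 * c 1 ^ 2 * c 4 ^ 2 * c 8 ^ 2 + 864 * c 1 ^ 2 * c 4 * c 5 * c 6 * c 9
    - 144 * c 1 ^ 2 * c 4 * c 5 * c 7 * c 8 - 576 * c 1 ^ 2 * c 5 ^ 2 * c 6 * c 8
    + 216 * c 1 ^ 2 * c 5 ^ 2 * c 7 ^ 2 + 864 * c 1 * c 2 ^ 2 * c 6 * c 7 * c 9
    - 576 * c 1 * c 2 ^ 2 * c 6 * c 8 ^ 2 + 96 * c 1 * c 2 ^ 2 * c 7 ^ 2 * c 8
    - 144 * c 1 * c 2 * c 3 ^ 2 * c 8 * c 9 + 720 * c 1 * c 2 * c 3 * c 4 * c 7 * c 9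
    - 144 * c 1 * c 2 * c 3 * c 4 * c 8 ^ 2 - 1296 * c 1 * c 2 * c 3 * c 5 * c 6 * c 9
    + 48 * c 1 * c 2 * c 3 * c 5 * c 7 * c 8 - 648 * c 1 * c 2 * c 4 ^ 2 * c 6 * c 9
    + 24 * c 1 * c 2 * c 4 ^ 2 * c 7 * c 8 + 720 * c 1 * c 2 * c 4 * c 5 * c 6 * c 8
    - 144 * c 1 * c 2 * c 4 * c 5 * c 7 ^ 2 - 144 * c 1 * c 2 * c 5 ^ 2 * c 6 * c 7
    - 144 * c 1 * c 3 ^ 2 * c 4 * c 5 * c 9 + 96 * c 1 * c 3 ^ 2 * c 5 ^ 2 * c 8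
    + 36 * c 1 * c 3 * c 4 ^ 3 * c 9 + 24 * c 1 * c 3 * c 4 ^ 2 * c 5 * c 8
    - 144 * c 1 * c 3 * c 4 * c 5 ^ 2 * c 7 + 288 * c 1 * c 3 * c 5 ^ 3 * c 6 - 12 * c 1 * c 4 ^ 4 * c 8
    + 36 * c 1 * c 4 ^ 3 * c 5 * c 7 - 72 * c 1 * c 4 ^ 2 * c 5 ^ 2 * c 6
    - 864 * c 2 ^ 3 * c 6 ^ 2 * c 9 + 288 * c 2 ^ 3 * c 6 * c 7 * c 8 - 64 * c 2 ^ 3 * c 7 ^ 3
    - 576 * c 2 ^ 2 * c 3 ^ 2 * c 7 * c 9 + 216 * c 2 ^ 2 * c 3 ^ 2 * c 8 ^ 2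
    + 864 * c 2 ^ 2 * c 3 * c 4 * c 6 * c 9 - 144 * c 2 ^ 2 * c 3 * c 4 * c 7 * c 8
    - 144 * c 2 ^ 2 * c 3 * c 5 * c 6 * c 8 + 96 * c 2 ^ 2 * c 3 * c 5 * c 7 ^ 2
    - 72 * c 2 ^ 2 * c 4 ^ 2 * c 6 * c 8 + 48 * c 2 ^ 2 * c 4 ^ 2 * c 7 ^ 2
    - 144 * c 2 ^ 2 * c 4 * c 5 * c 6 * c 7 + 216 * c 2 ^ 2 * c 5 ^ 2 * c 6 ^ 2
    + 288 * c 2 * c 3 ^ 3 * c 5 * c 9 - 72 * c 2 * c 3 ^ 2 * c 4 ^ 2 * c 9
    - 144 * c 2 * c 3 ^ 2 * c 4 * c 5 * c 8 + 96 * c 2 * c 3 ^ 2 * c 5 ^ 2 * c 7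
    + 36 * c 2 * c 3 * c 4 ^ 3 * c 8 + 24 * c 2 * c 3 * c 4 ^ 2 * c 5 * c 7
    - 144 * c 2 * c 3 * c 4 * c 5 ^ 2 * c 6 - 12 * c 2 * c 4 ^ 4 * c 7 + 36 * c 2 * c 4 ^ 3 * c 5 * c 6
    - 64 * c 3 ^ 3 * c 5 ^ 3 + 48 * c 3 ^ 2 * c 4 ^ 2 * c 5 ^ 2 - 12 * c 3 * c 4 ^ 4 * c 5 + c 4 ^ 6) / 864

end inv

section basic

variable {R : Type*} [CommRing R]

lemma cub_pull (c : Fin 10 → R) (p q r : Fin 3 → R) (X Y Z : R) :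
    cub (pull c p q r) X Y Z = cub c (p 0 * X + q 0 * Y + r 0 * Z) (p 1 * X + q 1 * Y + r 1 * Z)
      (p 2 * X + q 2 * Y + r 2 * Z) := by
  have h0 : pull c p q r 0 = cub c (p 0) (p 1) (p 2) := rfl
  have h1 : pull c p q r 1 = dcub c p q := rfl
  have h2 : pull c p q r 2 = dcub c p r := rfl
  have h3 : pull c p q r 3 = dcub c q p := rfl
  have h4 : pull c p q r 4 = mcub c p q r := rfl
  have h5 : pull c p q r 5 = dcub c r p := rfl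
  have h6 : pull c p q r 6 = cub c (q 0) (q 1) (q 2) := rfl
  have h7 : pull c p q r 7 = dcub c q r := rfl
  have h8 : pull c p q r 8 = dcub c r q := rfl
  have h9 : pull c p q r 9 = cub c (r 0) (r 1) (r 2) := rfl
  unfold cub at *
  rw [h0, h1, h2, h3, h4, h5, h6, h7, h8, h9]
  unfold dcub mcub
  ring

lemma cub_act (c : Fin 10 → R) (N : Matrix (Fin 3) (Fin 3) R) (X Y Z : R) :
    cub (act c N) X Y Z = cub c (N 0 0 * X + N 0 1 * Y + N 0 2 * Z) (N 1 0 * X + N 1 1 * Y + N 1 2 * Z)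
      (N 2 0 * X + N 2 1 * Y + N 2 2 * Z) :=
  cub_pull c _ _ _ X Y Z

lemma cub_wei (A B X Y Z : R) :
    cub (wei A B) X Y Z = Y ^ 2 * Z - X ^ 3 - A * X * Z ^ 2 - B * Z ^ 3 := by
  have h0 : wei A B 0 = -1 := rfl
  have h1 : wei A B 1 = 0 := rfl
  have h2 : wei A B 2 = 0 := rfl
  have h3 : wei A B 3 = 0 := rfl
  have h4 : wei A B 4 = 0 := rfl
  have h5 : wei A B 5 = -A := rfl
  have h6 : wei A B 6 = 0 := rfl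
  have h7 : wei A B 7 = 1 := rfl
  have h8 : wei A B 8 = 0 := rfl
  have h9 : wei A B 9 = -B := rfl
  unfold cub
  rw [h0, h1, h2, h3, h4, h5, h6, h7, h8, h9]
  ring

lemma cub_smul (t : R) (c : Fin 10 → R) (X Y Z : R) :
    cub (fun i => t * c i) X Y Z = t * cub c X Y Z := by
  unfold cub
  ring

lemma cub_scale (c : Fin 10 → R) (t X Y Z : R) :
    cub c (t * X) (t * Y) (t * Z) = t ^ 3 * cub c X Y Z := by
  unfold cub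
  ring

lemma cub_map {S : Type*} [CommRing S] (f : R →+* S) (c : Fin 10 → R) (X Y Z : R) :
    cub (fun i => f (c i)) (f X) (f Y) (f Z) = f (cub c X Y Z) := by
  unfold cub
  simp only [map_add, map_mul, map_pow]

lemma act_map {S : Type*} [CommRing S] (f : R →+* S) (c : Fin 10 → R) (N : Matrix (Fin 3) (Fin 3) R) :
    act (fun i => f (c i)) (N.map f) = fun i => f (act c N i) := by
  funext i
  fin_cases i <;>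
  simp [act, pull, cub, dcub, mcub, map_ofNat]

lemma act_one (c : Fin 10 → R) : act c 1 = c := by
  funext i
  fin_cases i <;>
  simp [act, pull, cub, dcub, mcub]

lemma act_smul (t : R) (c : Fin 10 → R) (N : Matrix (Fin 3) (Fin 3) R) :
    act (fun i => t * c i) N = fun i => t * act c N i := by
  funext i
  fin_cases i <;>
  simp [act, pull, cub, dcub, mcub] <;> ring

lemma act_mul (c : Fin 10 → R) (N M : Matrix (Fin 3) (Fin 3) R) : act c (N * M) = act (act c N) M := by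
  funext i
  fin_cases i <;>
  simp [act, pull, cub, dcub, mcub, Matrix.mul_apply, Fin.sum_univ_three] <;> ring

end basic

section field

variable {K : Type*} [Field K] [CharZero K]

lemma sA_wei (A B : K) : sA (wei A B) = A := by
  have h0 : wei A B 0 = -1 := rfl
  have h1 : wei A B 1 = 0 := rfl
  have h2 : wei A B 2 = 0 := rfl
  have h3 : wei A B 3 = 0 := rfl
  have h4 : wei A B 4 = 0 := rfl
  have h5 : wei A B 5 = -A := rfl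
  have h6 : wei A B 6 = 0 := rfl
  have h7 : wei A B 7 = 1 := rfl
  have h8 : wei A B 8 = 0 := rfl
  have h9 : wei A B 9 = -B := rfl
  unfold sA
  rw [h0, h1, h2, h3, h4, h5, h6, h7, h8, h9]
  ring

lemma sB_wei (A B : K) : sB (wei A B) = B := by
  have h0 : wei A B 0 = -1 := rfl
  have h1 : wei A B 1 = 0 := rfl
  have h2 : wei A B 2 = 0 := rfl
  have h3 : wei A B 3 = 0 := rfl
  have h4 : wei A B 4 = 0 := rfl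
  have h5 : wei A B 5 = -A := rfl
  have h6 : wei A B 6 = 0 := rfl
  have h7 : wei A B 7 = 1 := rfl
  have h8 : wei A B 8 = 0 := rfl
  have h9 : wei A B 9 = -B := rfl
  unfold sB
  rw [h0, h1, h2, h3, h4, h5, h6, h7, h8, h9]
  ring

lemma sA_smul (t : K) (c : Fin 10 → K) : sA (fun i => t * c i) = t ^ 4 * sA c := by
  unfold sA
  ring

lemma sB_smul (t : K) (c : Fin 10 → K) : sB (fun i => t * c i) = t ^ 6 * sB c := by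
  unfold sB
  ring

lemma sA_map {E : Type*} [Field E] (f : K →+* E) (c : Fin 10 → K) : sA (fun i => f (c i)) = f (sA c) := by
  unfold sA
  simp only [map_add, map_sub, map_mul, map_pow, map_neg, map_div₀, map_ofNat]

lemma sB_map {E : Type*} [Field E] (f : K →+* E) (c : Fin 10 → K) : sB (fun i => f (c i)) = f (sB c) := by
  unfold sB
  simp only [map_add, map_sub, map_mul, map_pow, map_neg, map_div₀, map_ofNat]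

end field

end Pool.Agent.Helper83.PC
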