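import Pool.Agent.Helper55.PC.Base
import Pool.Agent.Helper55.PC.GraphDefs

/-! # MP_cf7fa9_pr, block B16: from the core estimates to the product condition and the absence of
pre-cutoff. -/

namespace Pool.Agent.Helper55.PC

open Finset Filter
open scoped Topology ENNReal

namespace B16

variable {V : Type} [Fintype V]

omit [Fintype V] in
theorem lazyP_symm (G : SimpleGraph V) (hreg : ∀ x, deg G x = 7) (x y : V) :
    lazyP G x y = lazyP G y x := by
  classical
  unfold lazyP
  simp only [Matrix.of_apply]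
  by_cases hxy : x = y
  · subst hxy; rfl
  · have hyx : ¬ y = x := fun h => hxy h.symm
    rw [if_neg hxy, if_neg hyx, hreg x, hreg y]
    by_cases ha : G.Adj x y
    · rw [if_pos ha, if_pos ha.symm]
    · rw [if_neg ha, if_neg (fun h => ha h.symm)]

theorem lazyP_row (G : SimpleGraph V) (hreg : ∀ x, deg G x = 7) (x : V) :
    ∑ y, lazyP G x y = 1 := by
  classical
  have h1 : ∀ y, lazyP G x y = (if x = y then (1 / 2 : ℝ) else 0) +
      (if y ∈ G.neighborSet x then (1 / 14 : ℝ) else 0) := by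
    intro y
    unfold lazyP
    simp only [Matrix.of_apply]
    by_cases hxy : x = y
    · subst hxy
      simp
    · rw [if_neg hxy, if_neg hxy, hreg x, zero_add]
      simp only [SimpleGraph.mem_neighborSet]
      norm_num
  simp_rw [h1]
  rw [Finset.sum_add_distrib]
  have h2 : ∑ y, (if x = y then (1 / 2 : ℝ) else 0) = 1 / 2 := by
    rw [Finset.sum_ite_eq]; simp
  have h3 : ∑ y, (if y ∈ G.neighborSet x then (1 / 14 : ℝ) else 0) = 7 * (1 / 14) := by
    rw [← Finset.sum_filter, Finset.sum_const, nsmul_eq_mul]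
    congr 1
    have h4 := hreg x
    unfold deg at h4
    rw [Set.ncard_eq_toFinset_card'] at h4
    have h5 : (Finset.filter (fun y => y ∈ G.neighborSet x) Finset.univ) =
        (G.neighborSet x).toFinset := by
      ext y; simp
    rw [h5, h4]
    norm_num
  rw [h2, h3]
  norm_num

theorem statDist_eq (G : SimpleGraph V) (hreg : ∀ x, deg G x = 7) (x : V) :
    statDist G x = 1 / (Fintype.card V : ℝ) := by
  unfold statDist
  simp_rw [hreg]
  rw [Finset.sum_const, nsmul_eq_mul, Finset.card_univ]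
  have hc : (0 : ℝ) < (Fintype.card V : ℝ) := by
    have : 0 < Fintype.card V := Fintype.card_pos_iff.mpr ⟨x⟩
    exact_mod_cast this
  field_simp

theorem sum_statDist (G : SimpleGraph V) (hreg : ∀ x, deg G x = 7) (x : V) :
    ∑ y, statDist G y = 1 := by
  simp_rw [statDist_eq G hreg]
  rw [Finset.sum_const, nsmul_eq_mul, Finset.card_univ]
  have hc : (0 : ℝ) < (Fintype.card V : ℝ) := by
    have : 0 < Fintype.card V := Fintype.card_pos_iff.mpr ⟨x⟩
    exact_mod_cast this
  field_simp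

theorem pow_row (G : SimpleGraph V) [DecidableEq V] (hreg : ∀ x, deg G x = 7) (t : ℕ) (x : V) :
    ∑ y, (lazyP G ^ t) x y = 1 := by
  induction t generalizing x with
  | zero =>
    simp [Matrix.one_apply]
  | succ t ih =>
    rw [pow_succ']
    simp_rw [Matrix.mul_apply]
    rw [Finset.sum_comm]
    simp_rw [← Finset.mul_sum, ih]
    simp only [mul_one]
    exact lazyP_row G hreg x

theorem stat_pow (G : SimpleGraph V) [DecidableEq V] (hreg : ∀ x, deg G x = 7) (t : ℕ) (y : V) :
    ∑ z, statDist G z * (lazyP G ^ t) z y = statDist G y := by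
  induction t generalizing y with
  | zero =>
    simp [Matrix.one_apply]
  | succ t ih =>
    rw [pow_succ]
    simp_rw [Matrix.mul_apply, Finset.mul_sum]
    rw [Finset.sum_comm]
    have h1 : ∀ w, ∑ z, statDist G z * ((lazyP G ^ t) z w * lazyP G w y) =
        statDist G w * lazyP G w y := by
      intro w
      rw [← ih w, Finset.sum_mul]
      exact Finset.sum_congr rfl (fun z _ => by ring)
    simp_rw [h1]
    simp_rw [statDist_eq G hreg]
    rw [← Finset.mul_sum]
    have h2 : ∑ w, lazyP G w y = 1 := by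
      rw [← lazyP_row G hreg y]
      exact Finset.sum_congr rfl (fun w _ => lazyP_symm G hreg w y)
    rw [h2, mul_one]

theorem tvAt_add (G : SimpleGraph V) (hreg : ∀ x, deg G x = 7) (s t1 : ℕ)
    (h1 : ∀ x, tvAt G t1 x ≤ 3 / 8) (x : V) :
    tvAt G (s + t1) x ≤ (3 / 4) * tvAt G s x := by
  classical
  unfold tvAt tvDist at h1 ⊢
  have key : ∀ y, (lazyP G ^ (s + t1)) x y - statDist G y =
      ∑ z, ((lazyP G ^ s) x z - statDist G z) * ((lazyP G ^ t1) z y - statDist G y) := by
    intro y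
    have e1 : ∀ z, ((lazyP G ^ s) x z - statDist G z) * ((lazyP G ^ t1) z y - statDist G y) =
        (lazyP G ^ s) x z * (lazyP G ^ t1) z y - statDist G z * (lazyP G ^ t1) z y -
          ((lazyP G ^ s) x z * statDist G y - statDist G z * statDist G y) := by
      intro z; ring
    simp_rw [e1]
    rw [Finset.sum_sub_distrib, Finset.sum_sub_distrib, Finset.sum_sub_distrib,
      ← Finset.sum_mul, ← Finset.sum_mul, stat_pow G hreg, sum_statDist G hreg x]
    rw [pow_add, Matrix.mul_apply]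
    have e2 : ∑ i, (lazyP G ^ s) x i = 1 := pow_row G hreg s x
    rw [e2]
    ring
  have hz : ∀ z, ∑ y, |(lazyP G ^ t1) z y - statDist G y| ≤ 3 / 4 := by
    intro z
    have h2 := h1 z
    have h3 : ∑ y, |(lazyP G ^ t1) z y - statDist G y| =
        2 * (1 / 2 * ∑ y, |(lazyP G ^ t1) z y - statDist G y|) := by ring
    rw [h3]
    have h4 : (1 / 2 * ∑ y, |(lazyP G ^ t1) z y - statDist G y|) ≤ 3 / 8 := by
      convert h2
    linarith
  have step : ∑ y, |(lazyP G ^ (s + t1)) x y - statDist G y| ≤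
      ∑ z, |(lazyP G ^ s) x z - statDist G z| * (3 / 4) := by
    calc ∑ y, |(lazyP G ^ (s + t1)) x y - statDist G y|
        ≤ ∑ y, ∑ z, |(lazyP G ^ s) x z - statDist G z| *
            |(lazyP G ^ t1) z y - statDist G y| := by
          refine Finset.sum_le_sum (fun y _ => ?_)
          rw [key y]
          refine (Finset.abs_sum_le_sum_abs _ _).trans ?_
          refine Finset.sum_le_sum (fun z _ => ?_)
          rw [abs_mul]
      _ = ∑ z, |(lazyP G ^ s) x z - statDist G z| *
            ∑ y, |(lazyP G ^ t1) z y - statDist G y| := by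
          rw [Finset.sum_comm]
          refine Finset.sum_congr rfl (fun z _ => ?_)
          rw [Finset.mul_sum]
      _ ≤ ∑ z, |(lazyP G ^ s) x z - statDist G z| * (3 / 4) := by
          refine Finset.sum_le_sum (fun z _ => ?_)
          exact mul_le_mul_of_nonneg_left (hz z) (abs_nonneg _)
  rw [← Finset.sum_mul] at step
  have h5 : 1 / 2 * ∑ y, |(lazyP G ^ (s + t1)) x y - statDist G y| ≤
      3 / 4 * (1 / 2 * ∑ y, |(lazyP G ^ s) x y - statDist G y|) := by
    linarith
  convert h5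

theorem tvAt_mul (G : SimpleGraph V) (hreg : ∀ x, deg G x = 7) (t1 : ℕ)
    (h1 : ∀ x, tvAt G t1 x ≤ 3 / 8) (m : ℕ) (x : V) :
    tvAt G ((m + 1) * t1) x ≤ (3 / 4) ^ m := by
  induction m with
  | zero =>
    simp only [zero_add, one_mul, pow_zero]
    exact (h1 x).trans (by norm_num)
  | succ m ih =>
    have h2 := tvAt_add G hreg ((m + 1) * t1) t1 h1 x
    have h3 : (m + 1 + 1) * t1 = (m + 1) * t1 + t1 := by ring
    rw [h3, pow_succ']
    linarith

theorem set_nonempty (G : SimpleGraph V) (hreg : ∀ x, deg G x = 7) (t1 : ℕ)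
    (h1 : ∀ x, tvAt G t1 x ≤ 3 / 8) {ε : ℝ} (hε : 0 < ε) :
    {t : ℕ | ∀ x, tvAt G t x ≤ ε}.Nonempty := by
  obtain ⟨m, hm⟩ := exists_pow_lt_of_lt_one hε (show (3 / 4 : ℝ) < 1 by norm_num)
  exact ⟨(m + 1) * t1, fun x => (tvAt_mul G hreg t1 h1 m x).trans hm.le⟩

theorem lt_tmix (G : SimpleGraph V) (hreg : ∀ x, deg G x = 7) (t1 : ℕ)
    (h1 : ∀ x, tvAt G t1 x ≤ 3 / 8) {ε : ℝ} (hε : 0 < ε) {a : ℝ}
    (ha : ∀ t : ℕ, (t : ℝ) ≤ a → ∃ x, ε < tvAt G t x) : a < (tmix G ε : ℝ) := by
  by_contra hcon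
  push Not at hcon
  obtain ⟨x, hx⟩ := ha _ hcon
  have h2 : tmix G ε ∈ {t : ℕ | ∀ x, tvAt G t x ≤ ε} := Nat.sInf_mem (set_nonempty G hreg t1 h1 hε)
  exact absurd (h2 x) (not_le.mpr hx)

end B16

/-- **B16** -/
theorem final_of_core (C : ℝ) (hC : 0 < C)
    (hcore : ∀ n : ℕ, ∃ (V : Type) (_ : Fintype V) (G : SimpleGraph V) (t1 : ℕ),
      G.Connected ∧ VertexTransitive G ∧ (∀ x, deg G x = 7) ∧ 0 < t1 ∧
      (∀ x, tvAt G t1 x ≤ 3 / 8) ∧
      (∀ t : ℕ, t ≤ n * t1 → ∃ x, Real.exp (-(C * t / t1)) - 1 / (n + 1) ≤ tvAt G t x) ∧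
      |trel G| ≤ t1 / (n + 1)) :
    ∃ 𝒢 : ℕ → FinGraph, (∀ n, (𝒢 n).G.Connected) ∧ (∀ n, VertexTransitive (𝒢 n).G) ∧
      (∀ n x, deg (𝒢 n).G x = 7) ∧ ProductCondition 𝒢 ∧ ¬ PreCutoff 𝒢 := by
  choose V hV G t1 hconn hvt hreg ht1 h38 hlow hrel using hcore
  refine ⟨fun n => ⟨V n, hV n, G n⟩, hconn, hvt, hreg, ?_, ?_⟩
  · -- product condition
    unfold ProductCondition
    set c : ℝ := min 1 (1 / (2 * C)) with hc
    have hcpos : 0 < c := lt_min one_pos (by positivity)
    have hc1 : c ≤ 1 := min_le_left _ _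
    have hcC : C * c ≤ 1 / 2 := by
      have h1 : c ≤ 1 / (2 * C) := min_le_right _ _
      calc C * c ≤ C * (1 / (2 * C)) := mul_le_mul_of_nonneg_left h1 hC.le
        _ = 1 / 2 := by field_simp
    have hmix : ∀ n : ℕ, 4 ≤ n → c * t1 n < (tmix (G n) (1 / 4) : ℝ) := by
      intro n hn
      have htp : (0 : ℝ) < t1 n := by exact_mod_cast ht1 n
      refine B16.lt_tmix (G n) (hreg n) (t1 n) (h38 n) (by norm_num) ?_
      intro t ht
      have hn' : (4 : ℝ) ≤ n := by exact_mod_cast hn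
      have ht2 : t ≤ n * t1 n := by
        have h1 : (t : ℝ) ≤ (n : ℝ) * t1 n := by
          calc (t : ℝ) ≤ c * t1 n := ht
            _ ≤ 1 * t1 n := mul_le_mul_of_nonneg_right hc1 htp.le
            _ ≤ n * t1 n := mul_le_mul_of_nonneg_right (by linarith) htp.le
        exact_mod_cast h1
      obtain ⟨x, hx⟩ := hlow n t ht2
      refine ⟨x, lt_of_lt_of_le ?_ hx⟩
      have h2 : C * t / t1 n ≤ 1 / 2 := by
        rw [div_le_iff₀ htp]
        calc C * t ≤ C * (c * t1 n) := mul_le_mul_of_nonneg_left ht hC.le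
          _ = (C * c) * t1 n := by ring
          _ ≤ 1 / 2 * t1 n := mul_le_mul_of_nonneg_right hcC htp.le
      have h3 : (1 / 2 : ℝ) ≤ Real.exp (-(C * t / t1 n)) := by
        have h4 := Real.add_one_le_exp (-(C * t / t1 n))
        linarith
      have h5 : 1 / ((n : ℝ) + 1) ≤ 1 / 5 :=
        one_div_le_one_div_of_le (by norm_num) (by linarith)
      linarith
    rw [Asymptotics.isLittleO_iff]
    intro ε hε
    obtain ⟨N, hN⟩ := exists_nat_gt (1 / (ε * c))
    filter_upwards [eventually_ge_atTop (max 4 N)] with n hn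
    have hn4 : 4 ≤ n := le_trans (le_max_left _ _) hn
    have hnN : N ≤ n := le_trans (le_max_right _ _) hn
    have htp : (0 : ℝ) < t1 n := by exact_mod_cast ht1 n
    have hm := hmix n hn4
    rw [Real.norm_eq_abs, Real.norm_eq_abs]
    have hm0 : (0 : ℝ) ≤ (tmix (G n) (1 / 4) : ℝ) := Nat.cast_nonneg _
    rw [abs_of_nonneg hm0]
    have hnr : 1 / (ε * c) < (n : ℝ) := lt_of_lt_of_le hN (by exact_mod_cast hnN)
    have hn1 : 1 ≤ ε * c * ((n : ℝ) + 1) := by
      have h6 : 1 / (ε * c) ≤ (n : ℝ) + 1 := by linarith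
      rw [div_le_iff₀ (by positivity)] at h6
      linarith
    have hnp : (0 : ℝ) < (n : ℝ) + 1 := by positivity
    calc |trel (G n)| ≤ t1 n / ((n : ℝ) + 1) := hrel n
      _ ≤ ε * (c * t1 n) := by
        rw [div_le_iff₀ hnp]
        calc (t1 n : ℝ) = 1 * t1 n := by ring
          _ ≤ (ε * c * ((n : ℝ) + 1)) * t1 n := mul_le_mul_of_nonneg_right hn1 htp.le
          _ = ε * (c * t1 n) * ((n : ℝ) + 1) := by ring
      _ ≤ ε * (tmix (G n) (1 / 4) : ℝ) := mul_le_mul_of_nonneg_left hm.le hε.le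
  · -- no pre-cutoff
    unfold PreCutoff
    rw [not_lt, top_le_iff]
    refine ENNReal.eq_top_of_forall_nnreal_le (fun r => ?_)
    obtain ⟨j, hj⟩ := exists_nat_gt r
    have hjpos : 0 < j := by
      have : (0 : NNReal) < (j : NNReal) := lt_of_le_of_lt (by positivity) hj
      exact_mod_cast this
    set ε : ℝ := Real.exp (-(C * j)) / 4 with hεdef
    have hexp1 : Real.exp (-(C * j)) ≤ 1 := by
      rw [Real.exp_le_one_iff]
      have : 0 ≤ C * j := by positivity
      linarith
    have hexp0 : 0 < Real.exp (-(C * j)) := Real.exp_pos _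
    have hε0 : 0 < ε := by positivity
    have hε2 : ε < 1 / 2 := by rw [hεdef]; linarith
    have hlim : (j : ℝ≥0∞) ≤ limsup (fun n =>
        (tmix (G n) ε : ℝ≥0∞) / (tmix (G n) (1 - ε) : ℝ≥0∞)) atTop := by
      refine le_limsup_of_frequently_le ?_ (by isBoundedDefault)
      refine Eventually.frequently ?_
      obtain ⟨N, hN⟩ := exists_nat_gt (4 / Real.exp (-(C * j)))
      filter_upwards [eventually_ge_atTop (max j N)] with n hn
      have hnj : j ≤ n := le_trans (le_max_left _ _) hn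
      have hnN : N ≤ n := le_trans (le_max_right _ _) hn
      have htp : (0 : ℝ) < t1 n := by exact_mod_cast ht1 n
      have hlt : (j : ℝ) * t1 n < (tmix (G n) ε : ℝ) := by
        refine B16.lt_tmix (G n) (hreg n) (t1 n) (h38 n) hε0 ?_
        intro t ht
        have ht2 : t ≤ n * t1 n := by
          have h1 : t ≤ j * t1 n := by exact_mod_cast ht
          exact h1.trans (Nat.mul_le_mul_right _ hnj)
        obtain ⟨x, hx⟩ := hlow n t ht2
        refine ⟨x, lt_of_lt_of_le ?_ hx⟩
        have h2 : C * t / t1 n ≤ C * j := by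
          rw [div_le_iff₀ htp]
          calc C * t ≤ C * (j * t1 n) := mul_le_mul_of_nonneg_left ht hC.le
            _ = C * j * t1 n := by ring
        have h3 : Real.exp (-(C * j)) ≤ Real.exp (-(C * t / t1 n)) :=
          Real.exp_le_exp.mpr (by linarith)
        have hnr : 4 / Real.exp (-(C * j)) < (n : ℝ) + 1 := by
          have : (N : ℝ) ≤ n := by exact_mod_cast hnN
          linarith
        have h4 : 1 / ((n : ℝ) + 1) < Real.exp (-(C * j)) / 4 := by
          rw [div_lt_iff₀ hexp0] at hnr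
          rw [div_lt_iff₀ (by positivity)]
          linarith
        rw [hεdef]
        linarith
      have hle : tmix (G n) (1 - ε) ≤ t1 n := by
        refine Nat.sInf_le ?_
        intro x
        exact (h38 n x).trans (by linarith)
      have hlt' : j * t1 n ≤ tmix (G n) ε := by
        have : ((j * t1 n : ℕ) : ℝ) < (tmix (G n) ε : ℝ) := by push_cast; exact hlt
        exact_mod_cast this.le
      have ht0 : (t1 n : ℝ≥0∞) ≠ 0 := by
        have := (ht1 n).ne'
        exact_mod_cast this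
      calc (j : ℝ≥0∞) = (j : ℝ≥0∞) * t1 n / t1 n := by
            rw [ENNReal.mul_div_cancel_right ht0 (ENNReal.natCast_ne_top _)]
        _ ≤ (tmix (G n) ε : ℝ≥0∞) / (t1 n : ℝ≥0∞) := by
            refine ENNReal.div_le_div_right ?_ _
            exact_mod_cast hlt'
        _ ≤ (tmix (G n) ε : ℝ≥0∞) / (tmix (G n) (1 - ε) : ℝ≥0∞) := by
            refine ENNReal.div_le_div_left ?_ _
            exact_mod_cast hle
    have hsup : limsup (fun n =>
        (tmix (G n) ε : ℝ≥0∞) / (tmix (G n) (1 - ε) : ℝ≥0∞)) atTop ≤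
        ⨆ ε ∈ Set.Ioo (0 : ℝ) (1 / 2),
          limsup (fun n => (tmix (G n) ε : ℝ≥0∞) / (tmix (G n) (1 - ε) : ℝ≥0∞)) atTop :=
      le_iSup₂_of_le ε ⟨hε0, hε2⟩ le_rfl
    calc (r : ℝ≥0∞) ≤ (j : ℝ≥0∞) := by exact_mod_cast hj.le
      _ ≤ _ := hlim.trans hsup

end Pool.Agent.Helper55.PC
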